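import Pool.Agent.Q68.SC.Main
open Set Filter Topology
open Pool.Agent.Q68.SC
noncomputable section
namespace Pool.Agent.Results.MP_8027ba_an.AllPerfectSets

/-- The admissible sequences: compact sets `K i` of nonnegative reals containing `0`, of positive
diameters tending to `0` and with finite sum. -/
def Admissible (K : ℕ → Set ℝ) : Prop :=
  (∀ i, IsCompact (K i) ∧ 0 ∈ K i ∧ (∀ x ∈ K i, 0 ≤ x) ∧ 0 < Metric.diam (K i)) ∧
    Tendsto (fun i => Metric.diam (K i)) atTop (𝓝 0) ∧ Summable (fun i => Metric.diam (K i))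

/-- The set of all sums of one point of each `K j`. -/
def sumSet (K : ℕ → Set ℝ) : Set ℝ := {s | ∃ x : ℕ → ℝ, (∀ j, x j ∈ K j) ∧ HasSum x s}

lemma mem_le_diam {K : ℕ → Set ℝ} (h : Admissible K) (j : ℕ) {x : ℝ} (hx : x ∈ K j) :
    ‖x‖ ≤ Metric.diam (K j) := by
  obtain ⟨h1, h2, -, -⟩ := h.1 j
  have := Metric.dist_le_diam_of_mem h1.isBounded hx h2
  rwa [dist_zero_right] at this

lemma sum_compact {K : ℕ → Set ℝ} (h : Admissible K) : IsCompact (sumSet K) := by
  have h1 : IsCompact (univ.pi K) := isCompact_univ_pi fun i => (h.1 i).1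
  have h2 : ContinuousOn (fun x : ℕ → ℝ => ∑' j, x j) (univ.pi K) := by
    refine continuousOn_tsum (u := fun j => Metric.diam (K j))
      (fun j => (continuous_apply j).continuousOn) h.2.2 fun j x hx => ?_
    exact mem_le_diam h j (hx j (mem_univ j))
  have e : sumSet K = (fun x : ℕ → ℝ => ∑' j, x j) '' univ.pi K := by
    ext s
    constructor
    · rintro ⟨x, hx, hs⟩
      exact ⟨x, fun j _ => hx j, hs.tsum_eq⟩
    · rintro ⟨x, hx, rfl⟩
      refine ⟨x, fun j => hx j (mem_univ j), Summable.hasSum ?_⟩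
      exact Summable.of_norm_bounded h.2.2 fun j => mem_le_diam h j (hx j (mem_univ j))
  rw [e]
  exact h1.image_of_continuousOn h2

lemma sum_nonempty {K : ℕ → Set ℝ} (h : Admissible K) : (sumSet K).Nonempty :=
  ⟨0, fun _ => 0, fun j => (h.1 j).2.1, hasSum_zero⟩

lemma sum_perf {K : ℕ → Set ℝ} (h : Admissible K) :
    ∀ z ∈ sumSet K, ∀ ε > 0, ∃ y ∈ sumSet K, y ≠ z ∧ |y - z| < ε := by
  rintro z ⟨x, hx, hs⟩ ε hε
  obtain ⟨n, hn⟩ := (h.2.1.eventually (gt_mem_nhds hε)).exists
  obtain ⟨h1, h2, h3, h4⟩ := h.1 n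
  have hne : ∃ y ∈ K n, y ≠ x n := by
    by_contra hc
    push Not at hc
    have : K n ⊆ {x n} := fun y hy => hc y hy
    have h5 : Metric.diam (K n) ≤ 0 := by
      rw [← Metric.diam_singleton (x := x n)]
      exact Metric.diam_mono this Bornology.isBounded_singleton
    linarith
  obtain ⟨y, hy, hyx⟩ := hne
  refine ⟨z + (y - x n), ⟨Function.update x n y, fun j => ?_, ?_⟩, ?_, ?_⟩
  · by_cases hj : j = n
    · subst hj; rw [Function.update_self]; exact hy
    · rw [Function.update_of_ne hj]; exact hx j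
  · have := hs.update n y
    have e : y - x n + z = z + (y - x n) := by ring
    rw [e] at this
    exact this
  · intro e
    apply hyx
    linarith
  · rw [add_sub_cancel_left]
    have := Metric.dist_le_diam_of_mem h1.isBounded hy (hx n)
    rw [Real.dist_eq] at this
    linarith

lemma homeo_of_inj {X : Set ℝ} (hX : IsCompact X) {g : ℝ → ℝ} (hc : ContinuousOn g X)
    (hi : InjOn g X) : Nonempty (X ≃ₜ (g '' X : Set ℝ)) := by
  have : CompactSpace X := isCompact_iff_compactSpace.1 hX
  let f : X → (g '' X : Set ℝ) := fun x => ⟨g x, x, x.2, rfl⟩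
  have hf : Function.Bijective f := by
    constructor
    · intro x y hxy
      have : g x = g y := congrArg Subtype.val hxy
      exact Subtype.ext (hi x.2 y.2 this)
    · rintro ⟨_, x, hx, rfl⟩
      exact ⟨⟨x, hx⟩, rfl⟩
  have hfc : Continuous f := by
    refine Continuous.subtype_mk ?_ _
    exact continuousOn_iff_continuous_domRestrict.1 hc
  exact ⟨Continuous.homeoOfEquivCompactToT2 (f := Equiv.ofBijective f hf) hfc⟩

/-- The realisation. -/
lemma realise {X : Set ℝ} (h : CP X) (hne : X.Nonempty) :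
    ∃ K : ℕ → Set ℝ, Admissible K ∧ Nonempty (X ≃ₜ sumSet K) := by
  classical
  obtain ⟨x₀, hx₀, hmin⟩ := h.comp.exists_isMinOn hne (hm_cont h)
  obtain ⟨μ, hμ⟩ : ∃ μ, μ = hm X x₀ := ⟨_, rfl⟩
  obtain ⟨g, hg⟩ : ∃ g : ℝ → ℝ, g = fun x => hm X x - μ := ⟨_, rfl⟩
  have gc : ContinuousOn g X := by rw [hg]; exact (hm_cont h).sub continuousOn_const
  have gi : InjOn g X := by
    intro x hx y hy hxy
    rw [hg] at hxy
    exact hm_inj h hx hy (by simpa using hxy)
  have hcomp : IsCompact (g '' X) := h.comp.image_of_continuousOn gc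
  have hnn : ∀ t ∈ g '' X, 0 ≤ t := by
    rintro _ ⟨x, hx, rfl⟩
    rw [hg, hμ]
    have : hm X x₀ ≤ hm X x := hmin hx
    simp only
    linarith
  have hcov : ∀ x ∈ X, ∃ ε : ℕ → Bool, ∀ δ : ℕ → Bool,
      g x - tau X 0 ε + tau X 0 δ ∈ g '' X := by
    intro x hx
    obtain ⟨ε, hε⟩ := cover h hx
    refine ⟨ε, fun δ => ?_⟩
    obtain ⟨y, hy, hyδ⟩ := hε δ
    refine ⟨y, hy, ?_⟩
    rw [hg]
    simp only
    rw [hyδ]; ring
  have tau_false : tau X 0 (fun _ => false) = 0 := by
    unfold tau bt; simp
  obtain ⟨K, hK⟩ : ∃ K : Set ℝ, K = {k | ∀ δ, k + tau X 0 δ ∈ g '' X} := ⟨_, rfl⟩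
  have hKsub : K ⊆ g '' X := by
    intro k hk
    rw [hK] at hk
    have := hk (fun _ => false)
    rwa [tau_false, add_zero] at this
  have hKclosed : IsClosed K := by
    have : K = ⋂ δ, (fun k => k + tau X 0 δ) ⁻¹' (g '' X) := by
      rw [hK]; ext k; simp only [mem_ofPred_eq, mem_iInter, mem_preimage]
    rw [this]
    exact isClosed_iInter fun δ => hcomp.isClosed.preimage (continuous_id.add continuous_const)
  have hKc : IsCompact K := hcomp.of_isClosed_subset hKclosed hKsub
  have h0K : (0:ℝ) ∈ K := by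
    obtain ⟨ε, hε⟩ := hcov x₀ hx₀
    have g0 : g x₀ = 0 := by rw [hg, hμ]; simp
    rw [g0, zero_sub] at hε
    have h1 := hnn _ (hε (fun _ => false))
    rw [tau_false, add_zero] at h1
    have h2 := tau_nonneg (X := X) 0 ε
    have h3 : tau X 0 ε = 0 := by linarith
    rw [h3, neg_zero] at hε
    rw [hK]; exact hε
  have diam_pair : ∀ n, Metric.diam ({0, xi X n} : Set ℝ) = xi X n := by
    intro n
    rw [Metric.diam_pair, dist_zero_left, Real.norm_of_nonneg (xi_pos X n).le]
  have hxs : Summable (xi X) := (xi_summable X 0).congr fun j => by rw [zero_add]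
  have digit : ∀ x : ℝ, ∀ n, x ∈ ({0, xi X n} : Set ℝ) → ∃ b : Bool, x = bt b * xi X n := by
    rintro x n (hx | hx)
    · exact ⟨false, by rw [hx]; simp [bt]⟩
    · exact ⟨true, by rw [hx]; simp [bt]⟩
  have digit' : ∀ (b : Bool) (n : ℕ), bt b * xi X n ∈ ({0, xi X n} : Set ℝ) := by
    intro b n
    cases b
    · left; simp [bt]
    · right; simp [bt]
  obtain ⟨e⟩ := homeo_of_inj h.comp gc gi
  by_cases hcase : ∃ k ∈ K, k ≠ 0
  · obtain ⟨k₁, hk₁, hk₁0⟩ := hcase
    obtain ⟨Ks, hKs⟩ : ∃ Ks : ℕ → Set ℝ, Ks = fun n => match n with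
      | 0 => K
      | n + 1 => {0, xi X n} := ⟨_, rfl⟩
    have e0 : Ks 0 = K := by rw [hKs]
    have e1 : ∀ n, Ks (n + 1) = {0, xi X n} := by intro n; rw [hKs]
    have hsum : Summable (fun i => Metric.diam (Ks i)) := by
      rw [← summable_nat_add_iff 1]
      refine hxs.congr fun n => ?_
      rw [e1, diam_pair]
    refine ⟨Ks, ⟨?_, hsum.tendsto_atTop_zero, hsum⟩, ?_⟩
    · intro i
      cases i with
      | zero =>
        rw [e0]
        refine ⟨hKc, h0K, fun x hx => hnn x (hKsub hx), ?_⟩
        have := Metric.dist_le_diam_of_mem hKc.isBounded hk₁ h0K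
        rw [dist_zero_right] at this
        have h5 : 0 < ‖k₁‖ := norm_pos_iff.2 hk₁0
        linarith
      | succ n =>
        rw [e1]
        refine ⟨(Set.toFinite _).isCompact, by simp, ?_, by rw [diam_pair]; exact xi_pos X n⟩
        rintro x (hx | hx)
        · rw [hx]
        · rw [hx]; exact (xi_pos X n).le
    · have heq : g '' X = sumSet Ks := by
        ext t
        constructor
        · rintro ⟨x, hx, rfl⟩
          obtain ⟨ε, hε⟩ := hcov x hx
          refine ⟨fun n => match n with
            | 0 => g x - tau X 0 ε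
            | n + 1 => bt (ε n) * xi X n, ?_, ?_⟩
          · intro j
            cases j with
            | zero => rw [e0, hK]; exact hε
            | succ n => rw [e1]; exact digit' _ _
          · rw [← hasSum_nat_add_iff' 1]
            simp only [Finset.range_one, Finset.sum_singleton]
            rw [sub_sub_cancel]
            have := (tau_summable (X := X) 0 ε).hasSum
            unfold tau
            simpa using this
        · rintro ⟨y, hy, hs⟩
          have hy1 : ∀ n, ∃ b : Bool, y (n + 1) = bt b * xi X n := fun n =>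
            digit _ _ (by rw [← e1]; exact hy (n + 1))
          choose b hb using hy1
          rw [← hasSum_nat_add_iff' 1] at hs
          simp only [Finset.range_one, Finset.sum_singleton] at hs
          have h6 : tau X 0 b = t - y 0 := by
            rw [← hs.tsum_eq]
            unfold tau
            refine tsum_congr fun n => ?_
            rw [hb n, zero_add]
          have h7 : y 0 ∈ K := by rw [← e0]; exact hy 0
          rw [hK] at h7
          have := h7 b
          rw [h6] at this
          simpa using this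
      exact ⟨e.trans (Homeomorph.setCongr heq)⟩
  · push Not at hcase
    refine ⟨fun n => {0, xi X n}, ⟨?_, ?_, ?_⟩, ?_⟩
    · intro n
      refine ⟨(Set.toFinite _).isCompact, by simp, ?_, by rw [diam_pair]; exact xi_pos X n⟩
      rintro x (hx | hx)
      · rw [hx]
      · rw [hx]; exact (xi_pos X n).le
    · simp only [diam_pair]; exact hxs.tendsto_atTop_zero
    · simp only [diam_pair]; exact hxs
    · have heq : g '' X = sumSet (fun n => {0, xi X n}) := by
        ext t
        constructor
        · rintro ⟨x, hx, rfl⟩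
          obtain ⟨ε, hε⟩ := hcov x hx
          have h6 : g x - tau X 0 ε = 0 := by
            refine hcase _ ?_
            rw [hK]; exact hε
          refine ⟨fun n => bt (ε n) * xi X n, fun j => digit' _ _, ?_⟩
          have h7 : g x = tau X 0 ε := by linarith
          rw [h7]
          have := (tau_summable (X := X) 0 ε).hasSum
          unfold tau
          simpa using this
        · rintro ⟨y, hy, hs⟩
          have hy1 : ∀ n, ∃ b : Bool, y n = bt b * xi X n := fun n => digit _ _ (hy n)
          choose b hb using hy1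
          have h6 : tau X 0 b = t := by
            rw [← hs.tsum_eq]
            unfold tau
            refine tsum_congr fun n => ?_
            rw [hb n, zero_add]
          rw [hK] at h0K
          have := h0K b
          rw [zero_add, h6] at this
          exact this
      exact ⟨e.trans (Homeomorph.setCongr heq)⟩

/-- **A subset of the line is homeomorphic to the set of sums of an admissible sequence of compact
sets if and only if it is nonempty, compact and without isolated points.** -/
theorem result (X : Set ℝ) :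
    (IsCompact X ∧ X.Nonempty ∧ Preperfect X) ↔
      ∃ K : ℕ → Set ℝ, Admissible K ∧ Nonempty (X ≃ₜ sumSet K) := by
  constructor
  · rintro ⟨hc, hne, hp⟩
    refine realise ⟨hc, fun z hz ε hε => ?_⟩ hne
    have := accPt_iff_nhds.1 (hp z hz) (Metric.ball z ε) (Metric.ball_mem_nhds z hε)
    obtain ⟨y, hy, hyz⟩ := this
    refine ⟨y, hy.2, hyz, ?_⟩
    have h1 := hy.1
    rw [Metric.mem_ball, Real.dist_eq] at h1
    exact h1
  · rintro ⟨K, hK, ⟨e⟩⟩
    have : CompactSpace (sumSet K) := isCompact_iff_compactSpace.1 (sum_compact hK)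
    refine ⟨?_, ?_, ?_⟩
    · rw [isCompact_iff_compactSpace]
      exact e.symm.compactSpace
    · obtain ⟨s, hs⟩ := sum_nonempty hK
      exact ⟨e.symm ⟨s, hs⟩, (e.symm ⟨s, hs⟩).2⟩
    · intro x hx
      rw [accPt_iff_nhds]
      intro U hU
      have hcont : Tendsto (fun s : sumSet K => (e.symm s : ℝ)) (𝓝 (e ⟨x, hx⟩)) (𝓝 x) := by
        have h1 : Continuous (fun s : sumSet K => (e.symm s : ℝ)) :=
          continuous_subtype_val.comp e.symm.continuous
        have h2 := h1.tendsto (e ⟨x, hx⟩)
        simpa using h2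
      have h3 := hcont hU
      rw [mem_map, Metric.mem_nhds_iff] at h3
      obtain ⟨ε, hε, hball⟩ := h3
      obtain ⟨y, hy, hyne, hyd⟩ := sum_perf hK (e ⟨x, hx⟩) (e ⟨x, hx⟩).2 ε hε
      have h4 : (⟨y, hy⟩ : sumSet K) ∈ Metric.ball (e ⟨x, hx⟩) ε := by
        rw [Metric.mem_ball, Subtype.dist_eq, Real.dist_eq]; exact hyd
      refine ⟨e.symm ⟨y, hy⟩, ⟨hball h4, (e.symm ⟨y, hy⟩).2⟩, ?_⟩
      intro h5
      apply hyne
      have h6 : e.symm ⟨y, hy⟩ = ⟨x, hx⟩ := Subtype.ext h5
      have h7 : (⟨y, hy⟩ : sumSet K) = e ⟨x, hx⟩ := by rw [← h6, e.apply_symm_apply]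
      exact congrArg Subtype.val h7

end Pool.Agent.Results.MP_8027ba_an.AllPerfectSets
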